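import Pool.Agent.N376.MP.Energy

/-! Products of bounded functions: comparison of the edges with all pairs. -/

set_option autoImplicit false

open Finset

namespace Pool.Agent.N376.MP

variable {V : Type*} [Fintype V]

/-- sign -/
def sb (b : Bool) : ℝ := if b then 1 else -1

/-- weights of the cells -/
noncomputable def wt {K : ℕ} (w₀ : V → ℝ) (θ : Fin K → V → ℝ) (c : Fin K → Bool) (x : V) : ℝ :=
  w₀ x * ∏ j, ((1 + sb (c j) * θ j x) / 2)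

/-- the second factor -/
noncomputable def hf {K : ℕ} (ε : ℝ) (φ : Fin K → V → ℝ) (c : Fin K → Bool) (y : V) : ℝ :=
  ∏ j, (1 + ε * sb (c j) * φ j y)

lemma sum_prod {K : ℕ} (f : Fin K → Bool → ℝ) :
    ∑ c : Fin K → Bool, ∏ j, f j (c j) = ∏ j, (f j true + f j false) := by
  have h := Finset.prod_univ_sum (fun _ : Fin K => (univ : Finset Bool)) f
  rw [Fintype.piFinset_univ] at h
  rw [← h]
  apply prod_congr rfl; intro j _
  simp

omit [Fintype V] in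
lemma sum_wt {K : ℕ} (w₀ : V → ℝ) (θ : Fin K → V → ℝ) (x : V) :
    ∑ c, wt w₀ θ c x = w₀ x := by
  unfold wt
  rw [← mul_sum, sum_prod (fun j b => (1 + sb b * θ j x) / 2)]
  have : ∏ j, ((1 + sb true * θ j x) / 2 + (1 + sb false * θ j x) / 2) = 1 := by
    apply prod_eq_one; intro j _
    simp only [sb, if_true, Bool.false_eq_true, if_false]
    ring
  rw [this, mul_one]

omit [Fintype V] in
lemma sum_wt_hf {K : ℕ} (w₀ : V → ℝ) (θ φ : Fin K → V → ℝ) (ε : ℝ) (x y : V) :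
    ∑ c, wt w₀ θ c x * hf ε φ c y = w₀ x * ∏ j, (1 + ε * (θ j x * φ j y)) := by
  unfold wt hf
  simp only [mul_assoc, ← prod_mul_distrib]
  rw [← mul_sum, sum_prod (fun j b => (1 + sb b * θ j x) / 2 * (1 + ε * (sb b * φ j y)))]
  congr 1
  apply prod_congr rfl; intro j _
  simp only [sb, if_true, Bool.false_eq_true, if_false]
  ring

omit [Fintype V] in
lemma sum_wt_hf_sq {K : ℕ} (w₀ : V → ℝ) (θ φ : Fin K → V → ℝ) (ε : ℝ) (x y : V) :
    ∑ c, wt w₀ θ c x * hf ε φ c y ^ 2 =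
      w₀ x * ∏ j, (1 + ε ^ 2 * φ j y ^ 2 + 2 * ε * (θ j x * φ j y)) := by
  unfold wt hf
  simp only [mul_assoc, ← prod_pow, ← prod_mul_distrib]
  rw [← mul_sum, sum_prod (fun j b => (1 + sb b * θ j x) / 2 * (1 + ε * (sb b * φ j y)) ^ 2)]
  congr 1
  apply prod_congr rfl; intro j _
  simp only [sb, if_true, Bool.false_eq_true, if_false]
  ring

omit [Fintype V] in
lemma wt_nonneg {K : ℕ} (w₀ : V → ℝ) (hw : ∀ x, 0 ≤ w₀ x) (θ : Fin K → V → ℝ)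
    (hθ : ∀ j x, |θ j x| ≤ 1) (c : Fin K → Bool) (x : V) : 0 ≤ wt w₀ θ c x := by
  unfold wt
  apply mul_nonneg (hw x)
  apply prod_nonneg; intro j _
  have := abs_le.1 (hθ j x)
  unfold sb
  split_ifs <;> linarith [this.1, this.2]

/-- the comparison -/
theorem core (G : SimpleGraph V) {K : ℕ} (w₀ : V → ℝ) (hw : ∀ x, 0 ≤ w₀ x)
    (θ φ : Fin K → V → ℝ) (hθ : ∀ j x, |θ j x| ≤ 1) (ε E lam : ℝ) (hlam : 0 < lam)
    (hE : ∀ w : (Fin K → Bool) → V → ℝ, (∀ c x, 0 ≤ w c x) → (∀ x, ∑ c, w c x = w₀ x) →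
      ∑ c, (∑ x, w c x)⁻¹ * ∑ y, nb G (w c) y ^ 2 ≤ E) :
    2 * ∑ x, ∑ y, w₀ x * adj G x y * ∏ j, (1 + ε * (θ j x * φ j y)) ≤
      lam * E + lam⁻¹ * ∑ x, ∑ y, w₀ x * ∏ j, (1 + ε ^ 2 * φ j y ^ 2 + 2 * ε * (θ j x * φ j y)) := by
  have hE' := hE (wt w₀ θ) (wt_nonneg w₀ hw θ hθ) (sum_wt w₀ θ)
  have h1 : ∑ x, ∑ y, w₀ x * adj G x y * ∏ j, (1 + ε * (θ j x * φ j y)) =
      ∑ c, ∑ y, nb G (wt w₀ θ c) y * hf ε φ c y := by
    have e1 : ∀ c y, nb G (wt w₀ θ c) y * hf ε φ c y =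
        ∑ x, adj G x y * (wt w₀ θ c x * hf ε φ c y) := by
      intro c y
      unfold nb
      rw [sum_mul]
      apply sum_congr rfl; intro x _
      ring
    simp only [e1]
    have e2 : ∑ c, ∑ y, ∑ x, adj G x y * (wt w₀ θ c x * hf ε φ c y) =
        ∑ x, ∑ y, ∑ c, adj G x y * (wt w₀ θ c x * hf ε φ c y) := by
      rw [sum_comm]
      have : ∀ y, ∑ c, ∑ x, adj G x y * (wt w₀ θ c x * hf ε φ c y) =
          ∑ x, ∑ c, adj G x y * (wt w₀ θ c x * hf ε φ c y) := fun y => sum_comm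
      simp only [this]
      rw [sum_comm]
    rw [e2]
    apply sum_congr rfl; intro x _
    apply sum_congr rfl; intro y _
    rw [← mul_sum, sum_wt_hf]
    ring
  have h2 : ∑ x, ∑ y, w₀ x * ∏ j, (1 + ε ^ 2 * φ j y ^ 2 + 2 * ε * (θ j x * φ j y)) =
      ∑ c, (∑ x, wt w₀ θ c x) * ∑ y, hf ε φ c y ^ 2 := by
    simp only [← sum_wt_hf_sq]
    have e1 : ∀ c, (∑ x, wt w₀ θ c x) * ∑ y, hf ε φ c y ^ 2 =
        ∑ x, ∑ y, wt w₀ θ c x * hf ε φ c y ^ 2 := by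
      intro c
      rw [sum_mul_sum]
    calc ∑ x, ∑ y, ∑ c, wt w₀ θ c x * hf ε φ c y ^ 2 =
          ∑ x, ∑ c, ∑ y, wt w₀ θ c x * hf ε φ c y ^ 2 := sum_congr rfl fun x _ => sum_comm
      _ = ∑ c, ∑ x, ∑ y, wt w₀ θ c x * hf ε φ c y ^ 2 := sum_comm
      _ = _ := sum_congr rfl fun c _ => (e1 c).symm
  rw [h1, h2]
  have h3 : ∀ c, 2 * ∑ y, nb G (wt w₀ θ c) y * hf ε φ c y ≤
      lam * ((∑ x, wt w₀ θ c x)⁻¹ * ∑ y, nb G (wt w₀ θ c) y ^ 2) +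
        lam⁻¹ * ((∑ x, wt w₀ θ c x) * ∑ y, hf ε φ c y ^ 2) := by
    intro c
    have hW0 : 0 ≤ ∑ x, wt w₀ θ c x := sum_nonneg fun x _ => wt_nonneg w₀ hw θ hθ c x
    rcases hW0.eq_or_lt with h0 | h0
    · have hz : ∀ y, nb G (wt w₀ θ c) y = 0 := by
        intro y
        apply le_antisymm _ (nb_nonneg G _ (wt_nonneg w₀ hw θ hθ c) y)
        rw [h0]
        exact nb_le G _ (wt_nonneg w₀ hw θ hθ c) y
      simp [← h0, hz]
    · set W := ∑ x, wt w₀ θ c x with hW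
      have e1 : ∀ y, 2 * (nb G (wt w₀ θ c) y * hf ε φ c y) ≤
          lam * (W⁻¹ * nb G (wt w₀ θ c) y ^ 2) + lam⁻¹ * (W * hf ε φ c y ^ 2) := by
        intro y
        have : 0 ≤ lam * W⁻¹ * (nb G (wt w₀ θ c) y - lam⁻¹ * W * hf ε φ c y) ^ 2 := by positivity
        have e3 : lam * W⁻¹ * (nb G (wt w₀ θ c) y - lam⁻¹ * W * hf ε φ c y) ^ 2 =
            lam * (W⁻¹ * nb G (wt w₀ θ c) y ^ 2) + lam⁻¹ * (W * hf ε φ c y ^ 2) -
              2 * (nb G (wt w₀ θ c) y * hf ε φ c y) := by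
          field_simp
          ring
        linarith
      rw [mul_sum]
      refine (sum_le_sum fun y _ => e1 y).trans (le_of_eq ?_)
      rw [sum_add_distrib, ← mul_sum, ← mul_sum, ← mul_sum, ← mul_sum]
  have h4 : 2 * ∑ c, ∑ y, nb G (wt w₀ θ c) y * hf ε φ c y ≤
      lam * ∑ c, ((∑ x, wt w₀ θ c x)⁻¹ * ∑ y, nb G (wt w₀ θ c) y ^ 2) +
        lam⁻¹ * ∑ c, ((∑ x, wt w₀ θ c x) * ∑ y, hf ε φ c y ^ 2) := by
    rw [mul_sum, mul_sum, mul_sum, ← sum_add_distrib]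
    exact sum_le_sum fun c _ => h3 c
  have h5 := mul_le_mul_of_nonneg_left hE' hlam.le
  linarith

end Pool.Agent.N376.MP
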