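import Pool.Agent.N376.MP.Star

/-! The energy of a partition in a graph without `K_{s,t}`. -/

set_option autoImplicit false

open Finset

namespace Pool.Agent.N376.MP

variable {V : Type*} [Fintype V]

lemma nb_le (G : SimpleGraph V) (w : V → ℝ) (hw0 : ∀ x, 0 ≤ w x) (y : V) :
    nb G w y ≤ ∑ x, w x := by
  apply sum_le_sum
  intro x _
  calc adj G x y * w x ≤ 1 * w x := mul_le_mul_of_nonneg_right (adj_le G x y) (hw0 x)
    _ = w x := one_mul _

/-- the degree -/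
noncomputable def dg (G : SimpleGraph V) (x : V) : ℝ := ∑ y, adj G x y

lemma dg_nonneg (G : SimpleGraph V) (x : V) : 0 ≤ dg G x := sum_nonneg fun y _ => adj_nonneg G x y

lemma sum_nb (G : SimpleGraph V) (w : V → ℝ) : ∑ y, nb G w y = ∑ x, w x * dg G x := by
  unfold nb dg
  rw [sum_comm]
  apply sum_congr rfl; intro x _
  rw [mul_sum]
  apply sum_congr rfl; intro y _
  ring

/-- one cell -/
lemma cell [DecidableEq V] (G : SimpleGraph V) (s t : ℕ) (hs : 2 ≤ s)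
    (hG : (completeBipartiteGraph (Fin s) (Fin t)).Free G) (w : V → ℝ) (hw0 : ∀ x, 0 ≤ w x)
    (hw1 : ∀ x, w x ≤ 1) (q Δ : ℝ) (hq : 1 ≤ q) (hn : (Fintype.card V : ℝ) = q ^ s) (hΔ : 0 ≤ Δ)
    (hwd : ∀ x, w x * dg G x ≤ w x * Δ) :
    ∑ y, nb G w y ^ 2 ≤
      (∑ x, w x) * (q ^ (s - 2) * ((1 + 2 * t) * (∑ x, w x) + cs s * Δ)) := by
  have hC := one_le_cs s (by omega)
  set W := ∑ x, w x with hW
  have hW0 : 0 ≤ W := sum_nonneg fun x _ => hw0 x
  have hnb : ∑ y, nb G w y ≤ W * Δ := by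
    rw [sum_nb, hW, sum_mul]
    exact sum_le_sum fun x _ => hwd x
  have hq0 : 0 < q := by linarith
  rcases le_total W 1 with h1 | h1
  · have e1 : ∑ y, nb G w y ^ 2 ≤ W * (W * Δ) := by
      calc ∑ y, nb G w y ^ 2 ≤ ∑ y, W * nb G w y := by
            apply sum_le_sum; intro y _
            rw [sq]
            exact mul_le_mul_of_nonneg_right (nb_le G w hw0 y) (nb_nonneg G w hw0 y)
        _ = W * ∑ y, nb G w y := by rw [mul_sum]
        _ ≤ W * (W * Δ) := mul_le_mul_of_nonneg_left hnb hW0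
    refine e1.trans (mul_le_mul_of_nonneg_left ?_ hW0)
    have e2 : (1 : ℝ) ≤ q ^ (s - 2) := one_le_pow₀ hq
    have e3 : W * Δ ≤ Δ := by nlinarith
    have e4 : Δ ≤ cs s * Δ := by nlinarith
    have e5 : 0 ≤ (1 + 2 * (t : ℝ)) * W := by positivity
    have e6 : 0 ≤ (1 + 2 * (t : ℝ)) * W + cs s * Δ := by positivity
    calc W * Δ ≤ 1 * ((1 + 2 * (t : ℝ)) * W + cs s * Δ) := by linarith
      _ ≤ _ := mul_le_mul_of_nonneg_right e2 e6
  · obtain ⟨r, rfl⟩ : ∃ r, s = r + 2 := ⟨s - 2, by omega⟩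
    set τ := W / q with hτ
    have hτ0 : 0 < τ := by positivity
    have hWτ : W = τ * q := by rw [hτ]; field_simp
    have e1 : ∀ y, τ ^ r * nb G w y ^ 2 ≤ τ ^ (r + 2) + nb G w y ^ (r + 2) := by
      intro y
      have h0 := nb_nonneg G w hw0 y
      rcases le_total (nb G w y) τ with h | h
      · have : nb G w y ^ 2 ≤ τ ^ 2 := pow_le_pow_left₀ h0 h 2
        calc τ ^ r * nb G w y ^ 2 ≤ τ ^ r * τ ^ 2 := mul_le_mul_of_nonneg_left this (by positivity)
          _ = τ ^ (r + 2) := by ring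
          _ ≤ _ := le_add_of_nonneg_right (by positivity)
      · have : τ ^ r ≤ nb G w y ^ r := pow_le_pow_left₀ hτ0.le h r
        calc τ ^ r * nb G w y ^ 2 ≤ nb G w y ^ r * nb G w y ^ 2 :=
              mul_le_mul_of_nonneg_right this (by positivity)
          _ = nb G w y ^ (r + 2) := by ring
          _ ≤ _ := le_add_of_nonneg_left (by positivity)
    have e2 : τ ^ r * ∑ y, nb G w y ^ 2 ≤
        q ^ (r + 2) * τ ^ (r + 2) + (2 * t * W ^ (r + 2) + cs (r + 2) * (W * Δ)) := by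
      rw [mul_sum]
      refine (sum_le_sum fun y _ => e1 y).trans ?_
      rw [sum_add_distrib, sum_const, card_univ, nsmul_eq_mul, hn]
      have h3 := kst G (r + 2) t (by omega) hG w hw0 hw1
      have h4 : cs (r + 2) * ∑ y, nb G w y ≤ cs (r + 2) * (W * Δ) :=
        mul_le_mul_of_nonneg_left hnb (by linarith)
      linarith
    have e3 : W ≤ W ^ (r + 1) := by
      calc W = W ^ 1 := (pow_one W).symm
        _ ≤ W ^ (r + 1) := pow_le_pow_right₀ h1 (by omega)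
    have e4 : cs (r + 2) * (W * Δ) ≤ cs (r + 2) * (W ^ (r + 1) * Δ) := by
      apply mul_le_mul_of_nonneg_left _ (by linarith)
      exact mul_le_mul_of_nonneg_right e3 hΔ
    have e5 : τ ^ r * ∑ y, nb G w y ^ 2 ≤
        τ ^ r * (W * (q ^ (r + 2 - 2) * ((1 + 2 * t) * W + cs (r + 2) * Δ))) := by
      refine e2.trans ?_
      rw [show r + 2 - 2 = r by omega]
      have : τ ^ r * (W * (q ^ r * ((1 + 2 * t) * W + cs (r + 2) * Δ))) =
          q ^ (r + 2) * τ ^ (r + 2) + (2 * t * W ^ (r + 2) + cs (r + 2) * (W ^ (r + 1) * Δ)) := by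
        rw [hWτ]; ring
      rw [this]
      linarith
    exact le_of_mul_le_mul_left e5 (by positivity)

/-- the energy of a (weighted) partition -/
theorem energy [DecidableEq V] (G : SimpleGraph V) (s t : ℕ) (hs : 2 ≤ s)
    (hG : (completeBipartiteGraph (Fin s) (Fin t)).Free G) {κ : Type*} [Fintype κ]
    (w : κ → V → ℝ) (hw0 : ∀ c x, 0 ≤ w c x) (hw1 : ∀ x, ∑ c, w c x ≤ 1) (q Δ : ℝ) (hq : 1 ≤ q)
    (hn : (Fintype.card V : ℝ) = q ^ s) (hΔ : 0 ≤ Δ)
    (hwd : ∀ c x, w c x * dg G x ≤ w c x * Δ) :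
    ∑ c, (∑ x, w c x)⁻¹ * ∑ y, nb G (w c) y ^ 2 ≤
      q ^ (s - 2) * ((1 + 2 * t) * q ^ s + (Fintype.card κ : ℝ) * (cs s * Δ)) := by
  have hC := one_le_cs s (by omega)
  have hq0 : 0 < q := by linarith
  have h1 : ∀ c, (∑ x, w c x)⁻¹ * ∑ y, nb G (w c) y ^ 2 ≤
      q ^ (s - 2) * ((1 + 2 * t) * (∑ x, w c x) + cs s * Δ) := by
    intro c
    have hle : ∀ x, w c x ≤ 1 := fun x =>
      (single_le_sum (f := fun c => w c x) (fun c _ => hw0 c x) (mem_univ c)).trans (hw1 x)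
    have h := cell G s t hs hG (w c) (hw0 c) hle q Δ hq hn hΔ (hwd c)
    have hW0 : 0 ≤ ∑ x, w c x := sum_nonneg fun x _ => hw0 c x
    rcases hW0.eq_or_lt with h0 | h0
    · rw [← h0]
      simp only [inv_zero, zero_mul, mul_zero, zero_add]
      positivity
    · rw [inv_mul_le_iff₀ h0]
      exact h
  refine (sum_le_sum fun c _ => h1 c).trans ?_
  rw [← mul_sum]
  apply mul_le_mul_of_nonneg_left _ (by positivity)
  rw [sum_add_distrib, ← mul_sum, sum_const, card_univ, nsmul_eq_mul]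
  have h2 : ∑ c, ∑ x, w c x ≤ q ^ s := by
    rw [sum_comm, ← hn]
    calc ∑ x, ∑ c, w c x ≤ ∑ _x : V, (1 : ℝ) := sum_le_sum fun x _ => hw1 x
      _ = _ := by simp
  have h3 : (1 + 2 * (t : ℝ)) * ∑ c, ∑ x, w c x ≤ (1 + 2 * t) * q ^ s :=
    mul_le_mul_of_nonneg_left h2 (by positivity)
  linarith

/-- few edges at vertices of large degree -/
theorem high [DecidableEq V] (G : SimpleGraph V) (s t : ℕ) (hs : 2 ≤ s)
    (hG : (completeBipartiteGraph (Fin s) (Fin t)).Free G) (w : V → ℝ) (hw0 : ∀ x, 0 ≤ w x)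
    (hw1 : ∀ x, w x ≤ 1) (q : ℝ) (hq : 1 ≤ q) (hn : (Fintype.card V : ℝ) = q ^ s)
    (hwd : ∀ x, w x * ((4 * t + 1) * q ^ (s - 1)) ≤ w x * dg G x) :
    ∑ x, w x * dg G x ≤ 2 * cs s * q ^ s := by
  have hC := one_le_cs s (by omega)
  have hq0 : 0 < q := by linarith
  set D := ∑ x, w x * dg G x with hD
  set W := ∑ x, w x with hW
  have hW0 : 0 ≤ W := sum_nonneg fun x _ => hw0 x
  have hD0 : 0 ≤ D := sum_nonneg fun x _ => mul_nonneg (hw0 x) (dg_nonneg G x)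
  have h1 : W * ((4 * t + 1) * q ^ (s - 1)) ≤ D := by
    rw [hW, sum_mul]
    exact sum_le_sum fun x _ => hwd x
  have h2 := kst G s t (by omega) hG w hw0 hw1
  rw [sum_nb] at h2
  rw [← hD, ← hW] at h2
  obtain ⟨r, rfl⟩ : ∃ r, s = r + 2 := ⟨s - 2, by omega⟩
  have h3 := pow_sum_div_card_le_sum_pow (s := (univ : Finset V)) (f := nb G w)
    (fun y _ => nb_nonneg G w hw0 y) (r + 1)
  rw [sum_nb, ← hD, card_univ, hn] at h3
  rw [div_le_iff₀ (by positivity)] at h3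
  rw [show r + 2 - 1 = r + 1 by omega] at h1
  have h4 : 2 * t * W ^ (r + 2) * (q ^ (r + 2)) ^ (r + 1) ≤ D ^ (r + 2) / 2 := by
    have e1 : (W * ((4 * t + 1) * q ^ (r + 1))) ^ (r + 2) ≤ D ^ (r + 2) :=
      pow_le_pow_left₀ (by positivity) h1 _
    have e2 : (4 * (t : ℝ) + 1) ≤ (4 * (t : ℝ) + 1) ^ (r + 2) := by
      calc (4 * (t : ℝ) + 1) = (4 * (t : ℝ) + 1) ^ 1 := (pow_one _).symm
        _ ≤ _ := pow_le_pow_right₀ (by
          have : (0 : ℝ) ≤ t := Nat.cast_nonneg t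
          linarith) (by omega)
    have e3 : (W * ((4 * t + 1) * q ^ (r + 1))) ^ (r + 2) =
        (4 * (t : ℝ) + 1) ^ (r + 2) * (W ^ (r + 2) * (q ^ (r + 2)) ^ (r + 1)) := by
      rw [mul_pow, mul_pow, ← pow_mul q, ← pow_mul q, mul_comm (r + 1) (r + 2)]
      exact mul_left_comm _ _ _
    have e4 : 0 ≤ W ^ (r + 2) * (q ^ (r + 2)) ^ (r + 1) := by positivity
    have e5 : (4 * (t : ℝ)) * (W ^ (r + 2) * (q ^ (r + 2)) ^ (r + 1)) ≤ D ^ (r + 2) := by
      refine le_trans (mul_le_mul_of_nonneg_right (by linarith) e4) (e3 ▸ e1)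
    linarith
  have h5 : D ^ (r + 2) ≤ (2 * cs (r + 2)) * (q ^ (r + 2)) ^ (r + 1) * D := by
    have e0 : (0 : ℝ) ≤ (q ^ (r + 2)) ^ (r + 1) := by positivity
    have e1 := h3.trans (mul_le_mul_of_nonneg_right h2 e0)
    have e2 : (2 * t * W ^ (r + 2) + cs (r + 2) * D) * (q ^ (r + 2)) ^ (r + 1) =
      2 * t * W ^ (r + 2) * (q ^ (r + 2)) ^ (r + 1) + cs (r + 2) * D * (q ^ (r + 2)) ^ (r + 1) := by
      ring
    rw [show r + 1 + 1 = r + 2 by omega] at e1
    rw [e2] at e1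
    linarith
  by_contra hcon
  push Not at hcon
  have hDp : 0 < D := lt_of_le_of_lt (by positivity) hcon
  have h6 : D ^ (r + 1) ≤ (2 * cs (r + 2)) * (q ^ (r + 2)) ^ (r + 1) := by
    have : D ^ (r + 2) = D ^ (r + 1) * D := by ring
    rw [this] at h5
    exact le_of_mul_le_mul_right h5 hDp
  have h7 : (2 * cs (r + 2) * q ^ (r + 2)) ^ (r + 1) < D ^ (r + 1) :=
    pow_lt_pow_left₀ hcon (by positivity) (by omega)
  have h8 : (2 * cs (r + 2)) ≤ (2 * cs (r + 2)) ^ (r + 1) := by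
    calc (2 * cs (r + 2)) = (2 * cs (r + 2)) ^ 1 := (pow_one _).symm
      _ ≤ _ := pow_le_pow_right₀ (by linarith) (by omega)
  have h9 : (2 * cs (r + 2)) * (q ^ (r + 2)) ^ (r + 1) ≤ (2 * cs (r + 2) * q ^ (r + 2)) ^ (r + 1) := by
    rw [mul_pow]
    exact mul_le_mul_of_nonneg_right h8 (by positivity)
  linarith

end Pool.Agent.N376.MP
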