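import Pool.Agent.N376.LM.Gauss

/-! Bounded Gaussian features with covariance `exp (-1) sinh ⟨p, q⟩`. -/

set_option autoImplicit false

open MeasureTheory ProbabilityTheory Finset

namespace Pool.Agent.N376.MP

open Pool.Agent.N376.LM (gam lf measurable_lf lf_add)

variable {ι : Type} [Fintype ι]

lemma integral_cos (w : ι → ℝ) :
    ∫ g, Real.cos (lf w g) ∂(gam ι) = Real.exp (-(∑ i, w i ^ 2) / 2) := by
  have h1 : ∫ g, Complex.exp ((lf w g : ℝ) * Complex.I) ∂(gam ι) =
      ((Real.exp (-(∑ i, w i ^ 2) / 2) : ℝ) : ℂ) := by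
    have e1 : ∀ g : ι → ℝ, Complex.exp ((lf w g : ℝ) * Complex.I) =
        ∏ i, Complex.exp ((w i : ℂ) * (g i : ℝ) * Complex.I) := by
      intro g
      rw [← Complex.exp_sum]
      congr 1
      unfold lf
      push_cast
      rw [sum_mul]
    simp_rw [e1]
    unfold gam
    rw [integral_fintype_prod_eq_prod
      (f := fun (i : ι) (x : ℝ) => Complex.exp ((w i : ℂ) * (x : ℝ) * Complex.I))]
    have e2 : ∀ i, ∫ x : ℝ, Complex.exp ((w i : ℂ) * (x : ℝ) * Complex.I) ∂(gaussianReal 0 1) =
        Complex.exp (-((w i : ℂ) ^ 2) / 2) := by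
      intro i
      have := charFun_gaussianReal (μ := 0) (v := 1) (w i)
      rw [charFun_apply_real] at this
      rw [this]
      congr 1
      push_cast
      ring
    simp_rw [e2]
    rw [← Complex.exp_sum, ← sum_div, sum_neg_distrib]
    push_cast
    rfl
  have h2 : ∀ g : ι → ℝ, Real.cos (lf w g) = (Complex.exp ((lf w g : ℝ) * Complex.I)).re := by
    intro g
    rw [Complex.exp_ofReal_mul_I_re]
  simp_rw [h2]
  have hint : Integrable (fun g : ι → ℝ => Complex.exp ((lf w g : ℝ) * Complex.I)) (gam ι) := by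
    apply Integrable.of_bound (C := 1)
    · have := measurable_lf w
      exact (by fun_prop : Measurable fun g : ι → ℝ => Complex.exp ((lf w g : ℝ) * Complex.I)).aestronglyMeasurable
    · filter_upwards with g
      rw [Complex.norm_exp_ofReal_mul_I]
  rw [show (fun g : ι → ℝ => (Complex.exp ((lf w g : ℝ) * Complex.I)).re) =
    fun g => RCLike.re (Complex.exp ((lf w g : ℝ) * Complex.I)) from rfl]
  rw [integral_re hint, h1]
  exact Complex.ofReal_re _

omit [Fintype ι] in
lemma integrable_of_bdd {μ : Measure (ι → ℝ)} [IsFiniteMeasure μ] (f : (ι → ℝ) → ℝ) (hf : Measurable f)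
    (C : ℝ) (hC : ∀ g, |f g| ≤ C) : Integrable f μ :=
  Integrable.of_bound hf.aestronglyMeasurable C (Filter.Eventually.of_forall hC)

/-- the covariance of the features -/
lemma integral_sin_sin (p q : ι → ℝ) (hp : ∑ i, p i ^ 2 = 1) (hq : ∑ i, q i ^ 2 = 1) :
    ∫ g, Real.sin (lf p g) * Real.sin (lf q g) ∂(gam ι) =
      Real.exp (-1) * Real.sinh (∑ i, p i * q i) := by
  set m := ∑ i, p i * q i with hm
  have h1 : ∀ g : ι → ℝ, Real.sin (lf p g) * Real.sin (lf q g) =
      (Real.cos (lf (p - q) g) - Real.cos (lf (p + q) g)) / 2 := by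
    intro g
    have e1 : lf (p - q) g = lf p g - lf q g := by
      unfold lf
      rw [← sum_sub_distrib]
      apply sum_congr rfl; intro i _
      simp [sub_mul]
    rw [e1, lf_add, Real.cos_sub, Real.cos_add]
    ring
  simp_rw [h1]
  have hi : ∀ w : ι → ℝ, Integrable (fun g => Real.cos (lf w g)) (gam ι) := by
    intro w
    have := measurable_lf w
    exact integrable_of_bdd _ (by fun_prop) 1 fun g => Real.abs_cos_le_one _
  rw [integral_div, integral_sub (hi _) (hi _), integral_cos, integral_cos]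
  have e2 : ∑ i, (p - q) i ^ 2 = 2 - 2 * m := by
    have : ∀ i, (p - q) i ^ 2 = p i ^ 2 + q i ^ 2 - 2 * (p i * q i) := fun i => by
      simp only [Pi.sub_apply]; ring
    simp_rw [this]
    rw [sum_sub_distrib, sum_add_distrib, ← mul_sum, hp, hq, ← hm]
    ring
  have e3 : ∑ i, (p + q) i ^ 2 = 2 + 2 * m := by
    have : ∀ i, (p + q) i ^ 2 = p i ^ 2 + q i ^ 2 + 2 * (p i * q i) := fun i => by
      simp only [Pi.add_apply]; ring
    simp_rw [this]
    rw [sum_add_distrib, sum_add_distrib, ← mul_sum, hp, hq, ← hm]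
    ring
  rw [e2, e3, Real.sinh_eq]
  rw [show -(2 - 2 * m) / 2 = -1 + m by ring, show -(2 + 2 * m) / 2 = -1 + -m by ring,
    Real.exp_add, Real.exp_add]
  ring

end Pool.Agent.N376.MP
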