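import Pool.Agent.N376.MP.Main

/-! Final form. -/

set_option autoImplicit false

open Finset

namespace Pool.Agent.N376.MP

/-- the constant -/
noncomputable def cst (s t : ℕ) : ℝ := c3 s t + 2 * cs s

lemma cst_pos (s t : ℕ) (hs : 1 ≤ s) : 0 < cst s t := by
  have := one_le_cs s hs
  unfold cst c3 c1 c2
  positivity

theorem bound (s t : ℕ) (hs : 2 ≤ s) {V : Type*} [Fintype V] {H : Type*}
    [NormedAddCommGroup H] [InnerProductSpace ℝ H] (G : SimpleGraph V) (u v : V → H) (a b : ℝ)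
    (hb : -1 ≤ b) (hab : b < a) (ha : a ≤ 1)
    (hu : ∀ x, ‖u x‖ ≤ 1) (hv : ∀ x, ‖v x‖ ≤ 1)
    (h1 : ∀ x y, G.Adj x y → a ≤ inner ℝ (u x) (v y))
    (h2 : ∀ x y, x ≠ y → ¬ G.Adj x y → inner ℝ (u x) (v y) ≤ b)
    (hG : (completeBipartiteGraph (Fin s) (Fin t)).Free G) :
    (Nat.card G.edgeSet : ℝ) ≤
      cst s t * (Fintype.card V : ℝ) ^ (2 - 1 / (s : ℝ) - (a - b) ^ 2 / (50 * s)) := by
  classical
  have hc0 := cst_pos s t (by omega)
  rcases isEmpty_or_nonempty V with hV | hV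
  · have : IsEmpty G.edgeSet := by
      constructor
      rintro ⟨e, _⟩
      induction e with
      | _ x y => exact hV.elim x
    rw [Nat.card_of_isEmpty]
    simp only [Nat.cast_zero]
    positivity
  obtain ⟨ι, _, p, q, hp, hq, hpq⟩ := Pool.Agent.N376.LM.exists_coord u v hu hv
  set N : ℝ := (Fintype.card V : ℝ) with hN
  have hN1 : 1 ≤ N := by
    rw [hN]; exact_mod_cast Fintype.card_pos
  have hN0 : 0 < N := by linarith
  have hs0 : (0 : ℝ) < s := by exact_mod_cast (by omega : 0 < s)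
  set Q : ℝ := N ^ (1 / (s : ℝ)) with hQ
  have hQ1 : 1 ≤ Q := Real.one_le_rpow hN1 (by positivity)
  have hQs : N = Q ^ s := by
    rw [hQ, ← Real.rpow_natCast, ← Real.rpow_mul hN0.le]
    rw [one_div, inv_mul_cancel₀ hs0.ne', Real.rpow_one]
  have main := bound_q G s t hs hG p q hp hq a b hb hab ha
    (fun x y h => by rw [hpq]; exact h1 x y h)
    (fun x y hxy h => by rw [hpq]; exact h2 x y hxy h) Q hQ1 hQs
  have hdeg : ∑ x, dg G x = 2 * (Nat.card G.edgeSet : ℝ) := by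
    have h := G.sum_degrees_eq_twice_card_edges
    have e1 : ∀ x, dg G x = (G.degree x : ℝ) := by
      intro x
      unfold dg adj
      rw [sum_ite, sum_const_zero, add_zero, sum_const, nsmul_eq_mul, mul_one]
      rw [← SimpleGraph.card_neighborFinset_eq_degree]
      congr 2
      ext y
      simp
    rw [Nat.card_eq_fintype_card, ← SimpleGraph.edgeFinset_card]
    simp only [e1]
    exact_mod_cast h
  rw [hdeg] at main
  have hpow : Q ^ (2 * s - 1) * Q ^ (-(0.02 * (a - b) ^ 2)) =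
      N ^ (2 - 1 / (s : ℝ) - (a - b) ^ 2 / (50 * s)) := by
    rw [← Real.rpow_natCast, ← Real.rpow_add (by linarith), hQ, ← Real.rpow_mul hN0.le]
    congr 1
    rw [Nat.cast_sub (by omega)]
    push_cast
    field_simp
    ring
  rw [hpow] at main
  have h0 : 0 ≤ (c3 s t + 2 * cs s) * N ^ (2 - 1 / (s : ℝ) - (a - b) ^ 2 / (50 * s)) := by
    have : 0 ≤ c3 s t + 2 * cs s := hc0.le
    positivity
  unfold cst
  linarith

theorem margin (s t : ℕ) (hs : 2 ≤ s) (c : ℝ) (hc : 0 < c) {V : Type*} [Fintype V] {H : Type*}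
    [NormedAddCommGroup H] [InnerProductSpace ℝ H] (G : SimpleGraph V) (u v : V → H) (a b : ℝ)
    (hb : -1 ≤ b) (hab : b < a) (ha : a ≤ 1)
    (hu : ∀ x, ‖u x‖ ≤ 1) (hv : ∀ x, ‖v x‖ ≤ 1)
    (h1 : ∀ x y, G.Adj x y → a ≤ inner ℝ (u x) (v y))
    (h2 : ∀ x y, x ≠ y → ¬ G.Adj x y → inner ℝ (u x) (v y) ≤ b)
    (hG : (completeBipartiteGraph (Fin s) (Fin t)).Free G)
    (hcard : c * (Fintype.card V : ℝ) ^ (2 - 1 / (s : ℝ)) ≤ Nat.card G.edgeSet) :
    (a - b) ^ 2 * Real.log (Fintype.card V) ≤ 50 * s * |Real.log (cst s t / c)| := by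
  have hc0 := cst_pos s t (by omega)
  have hs0 : (0 : ℝ) < s := by exact_mod_cast (by omega : 0 < s)
  have main := hcard.trans (bound s t hs G u v a b hb hab ha hu hv h1 h2 hG)
  rcases Nat.eq_zero_or_pos (Fintype.card V) with h0 | h0
  · rw [h0]
    simp only [Nat.cast_zero, Real.log_zero, mul_zero]
    positivity
  set N : ℝ := (Fintype.card V : ℝ) with hN
  have hN0 : 0 < N := by rw [hN]; exact_mod_cast h0
  rw [Real.rpow_sub hN0 (2 - 1 / (s : ℝ)) ((a - b) ^ 2 / (50 * s)), ← mul_div_assoc,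
    le_div_iff₀ (by positivity)] at main
  have hp0 : 0 < N ^ (2 - 1 / (s : ℝ)) := by positivity
  have m2 : c * N ^ ((a - b) ^ 2 / (50 * s)) ≤ cst s t := by
    have e1 : c * N ^ ((a - b) ^ 2 / (50 * s)) * N ^ (2 - 1 / (s : ℝ)) ≤
        cst s t * N ^ (2 - 1 / (s : ℝ)) := by linarith
    exact le_of_mul_le_mul_right e1 hp0
  have m3 : N ^ ((a - b) ^ 2 / (50 * s)) ≤ cst s t / c := by
    rw [le_div_iff₀ hc]; linarith
  have m4 := Real.log_le_log (by positivity) m3
  rw [Real.log_rpow hN0] at m4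
  have m5 : (a - b) ^ 2 / (50 * s) * Real.log N ≤ |Real.log (cst s t / c)| :=
    m4.trans (le_abs_self _)
  have e2 : (a - b) ^ 2 * Real.log N = 50 * s * ((a - b) ^ 2 / (50 * s) * Real.log N) := by
    field_simp
  rw [e2]
  exact mul_le_mul_of_nonneg_left m5 (by positivity)

end Pool.Agent.N376.MP
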