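import Pool.Agent.N376.MP.Feat
import Pool.Agent.N376.MP.Core

/-! The comparison of edges and all pairs for a form with a Gaussian representation. -/

set_option autoImplicit false

open MeasureTheory ProbabilityTheory Finset

namespace Pool.Agent.N376.MP

open Pool.Agent.N376.LM (gam lf measurable_lf lf_add)

variable {ι : Type} [Fintype ι]

/-- independent copies -/
noncomputable def cop (ι : Type) [Fintype ι] (K : ℕ) : Measure (Fin K → ι → ℝ) :=
  Measure.pi fun _ => gam ι

instance (K : ℕ) : IsProbabilityMeasure (cop ι K) := by unfold cop; infer_instance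

lemma int_prod (K : ℕ) (f : (ι → ℝ) → ℝ) (hf : Integrable f (gam ι)) :
    Integrable (fun ω : Fin K → ι → ℝ => ∏ j, f (ω j)) (cop ι K) ∧
      ∫ ω : Fin K → ι → ℝ, ∏ j, f (ω j) ∂(cop ι K) = (∫ g, f g ∂(gam ι)) ^ K := by
  constructor
  · unfold cop
    exact Integrable.fintype_prod (f := fun _ : Fin K => f) fun _ => hf
  · unfold cop
    rw [integral_fintype_prod_eq_prod (f := fun _ : Fin K => f)]
    simp

/-- the covariance -/
noncomputable def psi (m : ℝ) : ℝ := Real.exp (-1) * Real.sinh m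

theorem integrated {V : Type*} [Fintype V] (G : SimpleGraph V) (K : ℕ) (w₀ : V → ℝ)
    (hw : ∀ x, 0 ≤ w₀ x) (p q : V → ι → ℝ) (hp : ∀ x, ∑ i, p x i ^ 2 = 1)
    (hq : ∀ x, ∑ i, q x i ^ 2 = 1) (ε E lam : ℝ) (hlam : 0 < lam)
    (hE : ∀ w : (Fin K → Bool) → V → ℝ, (∀ c x, 0 ≤ w c x) → (∀ x, ∑ c, w c x = w₀ x) →
      ∑ c, (∑ x, w c x)⁻¹ * ∑ y, nb G (w c) y ^ 2 ≤ E) :
    2 * ∑ x, ∑ y, w₀ x * adj G x y * (1 + ε * psi (∑ i, p x i * q y i)) ^ K ≤
      lam * E + lam⁻¹ * ∑ x, ∑ y, w₀ x *
        (1 + ε ^ 2 + 2 * ε * psi (∑ i, p x i * q y i)) ^ K := by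
  have hsin : ∀ w g : ι → ℝ, |Real.sin (lf w g)| ≤ 1 := fun w g => Real.abs_sin_le_one _
  have hms : ∀ w : ι → ℝ, Measurable fun g => Real.sin (lf w g) := fun w => by
    have := measurable_lf w
    fun_prop
  have hss : ∀ x y, Integrable (fun g => Real.sin (lf (p x) g) * Real.sin (lf (q y) g)) (gam ι) := by
    intro x y
    refine integrable_of_bdd _ ((hms _).mul (hms _)) 1 fun g => ?_
    rw [abs_mul]
    exact mul_le_one₀ (hsin _ _) (abs_nonneg _) (hsin _ _)
  have hL : ∀ x y, Integrable (fun g => 1 + ε * (Real.sin (lf (p x) g) * Real.sin (lf (q y) g)))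
      (gam ι) := fun x y => (integrable_const _).add ((hss x y).const_mul ε)
  have hR : ∀ x y, Integrable (fun g => 1 + ε ^ 2 + 2 * ε *
      (Real.sin (lf (p x) g) * Real.sin (lf (q y) g))) (gam ι) :=
    fun x y => (integrable_const _).add ((hss x y).const_mul (2 * ε))
  have iL : ∀ x y, ∫ g, (1 + ε * (Real.sin (lf (p x) g) * Real.sin (lf (q y) g))) ∂(gam ι) =
      1 + ε * psi (∑ i, p x i * q y i) := by
    intro x y
    rw [integral_add (integrable_const _) ((hss x y).const_mul ε), integral_const,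
      integral_const_mul, integral_sin_sin _ _ (hp x) (hq y)]
    simp [psi]
  have iR : ∀ x y, ∫ g, (1 + ε ^ 2 + 2 * ε * (Real.sin (lf (p x) g) * Real.sin (lf (q y) g)))
      ∂(gam ι) = 1 + ε ^ 2 + 2 * ε * psi (∑ i, p x i * q y i) := by
    intro x y
    rw [integral_add (integrable_const _) ((hss x y).const_mul (2 * ε)), integral_const,
      integral_const_mul, integral_sin_sin _ _ (hp x) (hq y)]
    simp [psi]
  have key : ∀ ω : Fin K → ι → ℝ,
      2 * ∑ x, ∑ y, w₀ x * adj G x y *
        ∏ j, (1 + ε * (Real.sin (lf (p x) (ω j)) * Real.sin (lf (q y) (ω j)))) ≤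
      lam * E + lam⁻¹ * ∑ x, ∑ y, w₀ x *
        ∏ j, (1 + ε ^ 2 + 2 * ε * (Real.sin (lf (p x) (ω j)) * Real.sin (lf (q y) (ω j)))) := by
    intro ω
    refine (core G w₀ hw (fun j x => Real.sin (lf (p x) (ω j)))
      (fun j y => Real.sin (lf (q y) (ω j))) (fun j x => hsin _ _) ε E lam hlam hE).trans ?_
    apply add_le_add le_rfl
    apply mul_le_mul_of_nonneg_left _ (inv_nonneg.2 hlam.le)
    apply sum_le_sum; intro x _
    apply sum_le_sum; intro y _
    apply mul_le_mul_of_nonneg_left _ (hw x)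
    apply prod_le_prod
    · intro j _
      have h1 := abs_le.1 (hsin (p x) (ω j))
      have h2 := abs_le.1 (hsin (q y) (ω j))
      set a := Real.sin (lf (p x) (ω j))
      set b := Real.sin (lf (q y) (ω j))
      have e : 1 + ε ^ 2 * b ^ 2 + 2 * ε * (a * b) =
          (1 + a) / 2 * (1 + ε * b) ^ 2 + (1 - a) / 2 * (1 - ε * b) ^ 2 := by ring
      rw [e]
      have e1 : 0 ≤ 1 + a := by linarith [h1.1]
      have e2 : 0 ≤ 1 - a := by linarith [h1.2]
      positivity
    · intro j _
      have h2 : Real.sin (lf (q y) (ω j)) ^ 2 ≤ 1 := Real.sin_sq_le_one _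
      nlinarith [mul_le_mul_of_nonneg_left h2 (sq_nonneg ε)]
  have IL : ∀ x y, Integrable (fun ω : Fin K → ι → ℝ =>
      ∏ j, (1 + ε * (Real.sin (lf (p x) (ω j)) * Real.sin (lf (q y) (ω j))))) (cop ι K) :=
    fun x y => (int_prod K _ (hL x y)).1
  have IR : ∀ x y, Integrable (fun ω : Fin K → ι → ℝ =>
      ∏ j, (1 + ε ^ 2 + 2 * ε * (Real.sin (lf (p x) (ω j)) * Real.sin (lf (q y) (ω j)))))
      (cop ι K) :=
    fun x y => (int_prod K _ (hR x y)).1
  have h := integral_mono (μ := cop ι K)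
    (f := fun ω : Fin K → ι → ℝ => 2 * ∑ x, ∑ y, w₀ x * adj G x y *
        ∏ j, (1 + ε * (Real.sin (lf (p x) (ω j)) * Real.sin (lf (q y) (ω j)))))
    (g := fun ω : Fin K → ι → ℝ => lam * E + lam⁻¹ * ∑ x, ∑ y, w₀ x *
        ∏ j, (1 + ε ^ 2 + 2 * ε * (Real.sin (lf (p x) (ω j)) * Real.sin (lf (q y) (ω j)))))
    (by
      apply Integrable.const_mul
      apply integrable_finsetSum; intro x _
      apply integrable_finsetSum; intro y _
      exact (IL x y).const_mul _)
    (by
      apply Integrable.add (integrable_const _)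
      apply Integrable.const_mul
      apply integrable_finsetSum; intro x _
      apply integrable_finsetSum; intro y _
      exact (IR x y).const_mul _)
    (fun ω => key ω)
  rw [integral_const_mul, integral_finsetSum _ (fun x _ => by
      apply integrable_finsetSum; intro y _
      exact (IL x y).const_mul _),
    integral_add (integrable_const _) (by
      apply Integrable.const_mul
      apply integrable_finsetSum; intro x _
      apply integrable_finsetSum; intro y _
      exact (IR x y).const_mul _), integral_const, integral_const_mul,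
    integral_finsetSum _ (fun x _ => by
      apply integrable_finsetSum; intro y _
      exact (IR x y).const_mul _)] at h
  have h1 : ∀ x, ∫ ω : Fin K → ι → ℝ, ∑ y, w₀ x * adj G x y *
        ∏ j, (1 + ε * (Real.sin (lf (p x) (ω j)) * Real.sin (lf (q y) (ω j)))) ∂(cop ι K) =
      ∑ y, w₀ x * adj G x y * (1 + ε * psi (∑ i, p x i * q y i)) ^ K := by
    intro x
    rw [integral_finsetSum _ (fun y _ => (IL x y).const_mul _)]
    apply sum_congr rfl; intro y _
    rw [integral_const_mul, (int_prod K _ (hL x y)).2, iL]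
  have h2 : ∀ x, ∫ ω : Fin K → ι → ℝ, ∑ y, w₀ x *
        ∏ j, (1 + ε ^ 2 + 2 * ε * (Real.sin (lf (p x) (ω j)) * Real.sin (lf (q y) (ω j))))
        ∂(cop ι K) =
      ∑ y, w₀ x * (1 + ε ^ 2 + 2 * ε * psi (∑ i, p x i * q y i)) ^ K := by
    intro x
    rw [integral_finsetSum _ (fun y _ => (IR x y).const_mul _)]
    apply sum_congr rfl; intro y _
    rw [integral_const_mul, (int_prod K _ (hR x y)).2, iR]
  simp only [h1, h2] at h
  simpa using h

end Pool.Agent.N376.MP
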