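import Pool.Agent.N376.MP.Num
import Pool.Agent.N376.LM.Main2

/-! Graphs without `K_{s,t}` given by half-spaces with a margin: a power saving for all margins. -/

set_option autoImplicit false

open Finset

namespace Pool.Agent.N376.MP

/-- the constants -/
noncomputable def c1 (s t : ℕ) : ℝ := 1 + 2 * t + cs s * (4 * t + 1)

noncomputable def c2 (s t : ℕ) : ℝ := 4 * t + 2 + 2 * cs s

noncomputable def c3 (s t : ℕ) : ℝ := c1 s t * ((1 + c2 s t) * Real.exp 0.32)

lemma two_pow_le {K : ℕ} {Q : ℝ} (hQ : 1 ≤ Q) (hK : (K : ℝ) ≤ Real.log Q / 2) :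
    (2 : ℝ) ^ K ≤ Q := by
  have hlog : 0 ≤ Real.log Q := Real.log_nonneg hQ
  have h1 : (2 : ℝ) ≤ Real.exp 1 := by
    have := Real.add_one_le_exp (1 : ℝ)
    linarith
  calc (2 : ℝ) ^ K ≤ Real.exp 1 ^ K := pow_le_pow_left₀ (by norm_num) h1 K
    _ = Real.exp K := by rw [← Real.exp_nat_mul]; simp
    _ ≤ Real.exp (Real.log Q) := Real.exp_le_exp.2 (by linarith)
    _ = Q := Real.exp_log (by linarith)

theorem bound_q {ι : Type} [Fintype ι] {V : Type*} [Fintype V] (G : SimpleGraph V) (s t : ℕ)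
    (hs : 2 ≤ s) (hG : (completeBipartiteGraph (Fin s) (Fin t)).Free G) (p q : V → ι → ℝ)
    (hp : ∀ x, ∑ i, p x i ^ 2 = 1) (hq : ∀ x, ∑ i, q x i ^ 2 = 1) (a b : ℝ) (hb : -1 ≤ b)
    (hab : b < a) (ha : a ≤ 1) (h1 : ∀ x y, G.Adj x y → a ≤ ∑ i, p x i * q y i)
    (h2 : ∀ x y, x ≠ y → ¬ G.Adj x y → ∑ i, p x i * q y i ≤ b) (Q : ℝ) (hQ : 1 ≤ Q)
    (hn : (Fintype.card V : ℝ) = Q ^ s) :
    ∑ x, dg G x ≤ (c3 s t + 2 * cs s) * (Q ^ (2 * s - 1) * Q ^ (-(0.02 * (a - b) ^ 2))) := by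
  classical
  have hC := one_le_cs s (by omega)
  have hQ0 : 0 < Q := by linarith
  have ht0 : (0 : ℝ) ≤ t := Nat.cast_nonneg t
  set h := a - b with hh
  have hh0 : 0 < h := by linarith
  have hh2 : h ≤ 2 := by linarith
  set Δ : ℝ := (4 * t + 1) * Q ^ (s - 1) with hΔ
  have hΔ0 : 0 ≤ Δ := by positivity
  obtain ⟨w₀, hwp, hwn⟩ : ∃ w₀ : V → ℝ, (∀ x, dg G x ≤ Δ → w₀ x = 1) ∧
      ∀ x, ¬ dg G x ≤ Δ → w₀ x = 0 :=
    ⟨fun x => if dg G x ≤ Δ then 1 else 0, fun x hx => if_pos hx, fun x hx => if_neg hx⟩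
  have hw0 : ∀ x, 0 ≤ w₀ x := fun x => by
    by_cases hx : dg G x ≤ Δ
    · rw [hwp x hx]; norm_num
    · rw [hwn x hx]
  have hw1 : ∀ x, w₀ x ≤ 1 := fun x => by
    by_cases hx : dg G x ≤ Δ
    · rw [hwp x hx]
    · rw [hwn x hx]; norm_num
  set K := ⌊Real.log Q / 2⌋₊ with hK
  have hlog : 0 ≤ Real.log Q := Real.log_nonneg hQ
  have hK1 : (K : ℝ) ≤ Real.log Q / 2 := Nat.floor_le (by linarith)
  have hK2 : Real.log Q / 2 - 1 ≤ K := by
    have := Nat.lt_floor_add_one (Real.log Q / 2)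
    linarith
  -- the energy
  set E : ℝ := Q ^ (s - 2) * (c1 s t * Q ^ s) with hE
  have hE0 : 0 < E := by
    have : 0 < c1 s t := by unfold c1; positivity
    positivity
  have hEn : ∀ w : (Fin K → Bool) → V → ℝ, (∀ c x, 0 ≤ w c x) → (∀ x, ∑ c, w c x = w₀ x) →
      ∑ c, (∑ x, w c x)⁻¹ * ∑ y, nb G (w c) y ^ 2 ≤ E := by
    intro w hw hsum
    have hwle : ∀ c x, w c x ≤ w₀ x := fun c x => by
      rw [← hsum x]
      exact single_le_sum (f := fun c => w c x) (fun c _ => hw c x) (mem_univ c)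
    refine (energy G s t hs hG w hw (fun x => by rw [hsum x]; exact hw1 x) Q Δ hQ hn hΔ0 ?_).trans ?_
    · intro c x
      by_cases hx : dg G x ≤ Δ
      · exact mul_le_mul_of_nonneg_left hx (hw c x)
      · have : w₀ x = 0 := hwn x hx
        have h0 : w c x = 0 := le_antisymm (this ▸ hwle c x) (hw c x)
        rw [h0, zero_mul, zero_mul]
    · rw [hE]
      apply mul_le_mul_of_nonneg_left _ (by positivity)
      have e1 : (Fintype.card (Fin K → Bool) : ℝ) ≤ Q := by
        rw [Fintype.card_fun, Fintype.card_bool, Fintype.card_fin]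
        push_cast
        exact two_pow_le hQ hK1
      have e2 : (Fintype.card (Fin K → Bool) : ℝ) * (cs s * Δ) ≤ Q * (cs s * Δ) :=
        mul_le_mul_of_nonneg_right e1 (by positivity)
      have e3 : Q * (cs s * Δ) = cs s * (4 * t + 1) * Q ^ s := by
        rw [hΔ]
        obtain ⟨r, rfl⟩ : ∃ r, s = r + 1 := ⟨s - 1, by omega⟩
        rw [show r + 1 - 1 = r by omega]
        ring
      have e4 : c1 s t * Q ^ s = (1 + 2 * t) * Q ^ s + cs s * (4 * t + 1) * Q ^ s := by
        unfold c1; ring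
      rw [e4]
      linarith
  -- Cauchy-Schwarz
  have hM : ∀ x y, |∑ i, p x i * q y i| ≤ 1 := by
    intro x y
    have := sum_mul_sq_le_sq_mul_sq univ (p x) (q y)
    rw [hp, hq] at this
    rw [← sq_le_one_iff_abs_le_one]
    linarith
  set P := (1 + h / 4 * psi a) ^ 2 with hPdef
  set B := 1 + (h / 4) ^ 2 + 2 * (h / 4) * psi b with hBdef
  have hb1 : |b| ≤ 1 := abs_le.2 ⟨hb, by linarith⟩
  have hlo := base_lo hb hab.le ha
  rw [← hh] at hlo
  have hB0 : 0 ≤ B := base_nonneg (a := a) (b := b) hb1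
  have hBP : B ≤ (1 - 0.08 * h ^ 2) * P := base_le hb hab.le ha
  have hP9 : 9 / 16 ≤ P := by
    calc (9 / 16 : ℝ) = (3 / 4) ^ 2 := by norm_num
      _ ≤ P := pow_le_pow_left₀ (by norm_num) hlo 2
  have hP0 : 0 < P := by linarith
  set S1 := ∑ x, ∑ y, w₀ x * adj G x y * (1 + h / 4 * psi (∑ i, p x i * q y i)) ^ K with hS1
  set S2 := ∑ x, ∑ y, w₀ x * (1 + (h / 4) ^ 2 + 2 * (h / 4) * psi (∑ i, p x i * q y i)) ^ K
    with hS2
  set e' := ∑ x, w₀ x * dg G x with he'
  have he0 : 0 ≤ e' := sum_nonneg fun x _ => mul_nonneg (hw0 x) (dg_nonneg G x)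
  have hS1lo : e' * (1 + h / 4 * psi a) ^ K ≤ S1 := by
    rw [he', hS1, sum_mul]
    apply sum_le_sum; intro x _
    unfold dg
    rw [mul_sum, sum_mul]
    apply sum_le_sum; intro y _
    by_cases hxy : G.Adj x y
    · apply mul_le_mul_of_nonneg_left _ (mul_nonneg (hw0 x) (adj_nonneg G x y))
      apply pow_le_pow_left₀ (by linarith)
      have := psi_mono (h1 x y hxy)
      have := mul_le_mul_of_nonneg_left this (show 0 ≤ h / 4 by linarith)
      linarith
    · have : adj G x y = 0 := by unfold adj; rw [if_neg hxy]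
      rw [this, mul_zero, zero_mul, zero_mul]
  have hS2hi : S2 ≤ Q ^ s * Q ^ s * B ^ K + (∑ x, dg G x + Q ^ s) * (7 / 4) ^ K := by
    have e1 : ∀ x y, w₀ x * (1 + (h / 4) ^ 2 + 2 * (h / 4) * psi (∑ i, p x i * q y i)) ^ K ≤
        B ^ K + (adj G x y * (7 / 4) ^ K + (if x = y then (7 / 4 : ℝ) ^ K else 0)) := by
      intro x y
      have f0 := base_nonneg (a := a) (b := b) (hM x y)
      rw [← hh] at f0
      have f1 : w₀ x * (1 + (h / 4) ^ 2 + 2 * (h / 4) * psi (∑ i, p x i * q y i)) ^ K ≤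
          (1 + (h / 4) ^ 2 + 2 * (h / 4) * psi (∑ i, p x i * q y i)) ^ K := by
        calc _ ≤ 1 * (1 + (h / 4) ^ 2 + 2 * (h / 4) * psi (∑ i, p x i * q y i)) ^ K :=
              mul_le_mul_of_nonneg_right (hw1 x) (pow_nonneg f0 K)
          _ = _ := one_mul _
      refine f1.trans ?_
      have f2 : (1 + (h / 4) ^ 2 + 2 * (h / 4) * psi (∑ i, p x i * q y i)) ^ K ≤ (7 / 4) ^ K :=
        pow_le_pow_left₀ f0 (base_hi hb hab.le ha (hM x y)) K
      have f3 : 0 ≤ B ^ K := pow_nonneg hB0 K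
      have f4 : (0 : ℝ) ≤ (7 / 4) ^ K := by positivity
      by_cases hxy : G.Adj x y
      · have : adj G x y = 1 := by unfold adj; rw [if_pos hxy]
        rw [this, one_mul]
        split_ifs <;> linarith
      · by_cases hxe : x = y
        · rw [if_pos hxe]
          have := mul_nonneg (adj_nonneg G x y) f4
          linarith
        · rw [if_neg hxe]
          have := mul_nonneg (adj_nonneg G x y) f4
          have f5 : (1 + (h / 4) ^ 2 + 2 * (h / 4) * psi (∑ i, p x i * q y i)) ^ K ≤ B ^ K := by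
            apply pow_le_pow_left₀ f0
            have := psi_mono (h2 x y hxe hxy)
            have := mul_le_mul_of_nonneg_left this (show 0 ≤ 2 * (h / 4) by linarith)
            linarith
          linarith
    refine (sum_le_sum fun x _ => sum_le_sum fun y _ => e1 x y).trans (le_of_eq ?_)
    simp only [sum_add_distrib, sum_const, card_univ, nsmul_eq_mul, ← sum_mul, sum_ite_eq,
      mem_univ, if_true]
    rw [hn]
    unfold dg
    ring
  have hCS : S1 ^ 2 ≤ E * S2 := by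
    have hS20 : 0 ≤ S2 := by
      apply sum_nonneg; intro x _
      apply sum_nonneg; intro y _
      have f0 := base_nonneg (a := a) (b := b) (hM x y)
      rw [← hh] at f0
      exact mul_nonneg (hw0 x) (pow_nonneg f0 K)
    have hS10 : 0 ≤ S1 := le_trans (mul_nonneg he0 (pow_nonneg (by linarith) K)) hS1lo
    rcases hS10.eq_or_lt with h0 | h0
    · rw [← h0]
      have := mul_nonneg hE0.le hS20
      simpa using this
    · have := integrated G K w₀ hw0 p q hp hq (h / 4) E (S1 / E) (by positivity) hEn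
      rw [← hS1, ← hS2] at this
      have e1 : S1 / E * E = S1 := by field_simp
      rw [e1] at this
      have e2 : S1 ≤ (S1 / E)⁻¹ * S2 := by linarith
      have e3 : (S1 / E)⁻¹ * S2 = E * S2 / S1 := by field_simp
      rw [e3, le_div_iff₀ h0] at e2
      rw [sq]
      exact e2
  -- the number of edges, crude bound
  have hDg : ∑ x, dg G x ≤ e' + 2 * cs s * Q ^ s := by
    have e1 := high G s t hs hG (fun x => 1 - w₀ x) (fun x => by linarith [hw1 x])
      (fun x => by linarith [hw0 x]) Q hQ hn (fun x => by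
        by_cases hx : dg G x ≤ Δ
        · have : w₀ x = 1 := hwp x hx
          rw [this]; simp
        · have : w₀ x = 0 := hwn x hx
          rw [this]
          push Not at hx
          linarith)
    have e2 : ∑ x, dg G x = e' + ∑ x, (1 - w₀ x) * dg G x := by
      rw [he', ← sum_add_distrib]
      apply sum_congr rfl; intro x _
      ring
    rw [e2]
    linarith
  have hQs : Q ^ s ≤ Q ^ (2 * s - 1) := pow_le_pow_right₀ hQ (by omega)
  have hQm : Q ^ s * Q ^ (s - 1) = Q ^ (2 * s - 1) := by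
    rw [← pow_add]; congr 1; omega
  have he'2 : e' ≤ (4 * t + 1) * Q ^ (2 * s - 1) := by
    have : e' ≤ ∑ _x : V, Δ := by
      apply sum_le_sum; intro x _
      by_cases hx : dg G x ≤ Δ
      · calc w₀ x * dg G x ≤ 1 * dg G x := mul_le_mul_of_nonneg_right (hw1 x) (dg_nonneg G x)
          _ ≤ Δ := by linarith
      · have : w₀ x = 0 := hwn x hx
        rw [this, zero_mul]; exact hΔ0
    rw [sum_const, card_univ, nsmul_eq_mul, hn, hΔ] at this
    refine this.trans (le_of_eq ?_)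
    rw [← hQm]; ring
  have hD2 : ∑ x, dg G x + Q ^ s ≤ c2 s t * Q ^ (2 * s - 1) := by
    have e1 : 2 * cs s * Q ^ s ≤ 2 * cs s * Q ^ (2 * s - 1) :=
      mul_le_mul_of_nonneg_left hQs (by linarith)
    have e2 : c2 s t * Q ^ (2 * s - 1) = (4 * t + 1) * Q ^ (2 * s - 1) +
        2 * cs s * Q ^ (2 * s - 1) + Q ^ (2 * s - 1) := by unfold c2; ring
    rw [e2]
    linarith
  -- combination
  set X := Q ^ (2 * s - 1) * Q ^ (-(0.02 * h ^ 2)) with hX
  have hX0 : 0 < X := by positivity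
  have hc2 : 0 ≤ c2 s t := by unfold c2; positivity
  have hc1 : 1 ≤ c1 s t := by
    unfold c1
    have : 0 ≤ cs s * (4 * t + 1) := by positivity
    linarith
  have hpow := powers K Q h P B hQ0 hK1 hK2 hh0.le hh2 hP9 hB0 hBP (c2 s t) hc2
  have hS2' : S2 ≤ Q ^ (2 * s - 1) *
      ((1 + c2 s t) * Real.exp 0.32 * Q * Q ^ (-(0.04 * h ^ 2)) * P ^ K) := by
    refine hS2hi.trans (le_trans ?_ (mul_le_mul_of_nonneg_left hpow (by positivity)))
    have e1 : (∑ x, dg G x + Q ^ s) * (7 / 4 : ℝ) ^ K ≤ c2 s t * Q ^ (2 * s - 1) * (7 / 4) ^ K :=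
      mul_le_mul_of_nonneg_right hD2 (by positivity)
    have e2 : Q ^ s * Q ^ s = Q ^ (2 * s - 1) * Q := by
      rw [← pow_add, ← pow_succ]; congr 1; omega
    rw [e2]
    linarith
  have hXX : X ^ 2 = Q ^ (s - 2) * Q ^ s * (Q ^ (2 * s - 1) * Q) * Q ^ (-(0.04 * h ^ 2)) := by
    rw [hX, mul_pow, ← Real.rpow_natCast (Q ^ (-(0.02 * h ^ 2))), ← Real.rpow_mul hQ0.le]
    have e1 : (Q ^ (2 * s - 1)) ^ 2 = Q ^ (s - 2) * Q ^ s * (Q ^ (2 * s - 1) * Q) := by
      rw [← pow_succ, ← pow_add, ← pow_add, ← pow_mul]; congr 1; omega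
    rw [e1]
    congr 2
    push_cast
    ring
  have hfin : e' ^ 2 ≤ c3 s t * X ^ 2 := by
    have e1 : (e' * (1 + h / 4 * psi a) ^ K) ^ 2 ≤ S1 ^ 2 :=
      pow_le_pow_left₀ (mul_nonneg he0 (pow_nonneg (by linarith) K)) hS1lo 2
    have e2 : (e' * (1 + h / 4 * psi a) ^ K) ^ 2 = e' ^ 2 * P ^ K := by
      rw [hPdef, mul_pow, ← pow_mul, ← pow_mul, mul_comm K 2]
    have e3 : e' ^ 2 * P ^ K ≤ c3 s t * X ^ 2 * P ^ K := by
      calc e' ^ 2 * P ^ K ≤ E * S2 := by rw [← e2]; exact e1.trans hCS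
        _ ≤ E * (Q ^ (2 * s - 1) *
            ((1 + c2 s t) * Real.exp 0.32 * Q * Q ^ (-(0.04 * h ^ 2)) * P ^ K)) :=
            mul_le_mul_of_nonneg_left hS2' hE0.le
        _ = c3 s t * X ^ 2 * P ^ K := by
            rw [hXX, hE]; unfold c3; ring
    exact le_of_mul_le_mul_right e3 (by positivity)
  have hc3 : 1 ≤ c3 s t := by
    unfold c3
    have e1 : 1 ≤ Real.exp 0.32 := Real.one_le_exp (by norm_num)
    have e2 : 1 ≤ (1 + c2 s t) * Real.exp 0.32 :=
      one_le_mul_of_one_le_of_one_le (by linarith only [hc2]) e1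
    exact one_le_mul_of_one_le_of_one_le hc1 e2
  have hfin2 : e' ≤ c3 s t * X := by
    have e1 : e' ^ 2 ≤ (c3 s t * X) ^ 2 := by
      rw [mul_pow]
      refine hfin.trans (mul_le_mul_of_nonneg_right ?_ (sq_nonneg X))
      rw [sq]
      exact le_mul_of_one_le_left (by linarith only [hc3]) hc3
    exact (abs_le_of_sq_le_sq' e1 (by positivity)).2
  have hQX : Q ^ s ≤ X := by
    rw [hX, ← hQm, mul_assoc]
    have e1 : 1 ≤ Q ^ (s - 1) * Q ^ (-(0.02 * h ^ 2)) := by
      rw [← Real.rpow_natCast, ← Real.rpow_add hQ0]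
      apply Real.one_le_rpow hQ
      have f1 : (1 : ℝ) ≤ ((s - 1 : ℕ) : ℝ) := by exact_mod_cast (by omega : 1 ≤ s - 1)
      have f2 : h ^ 2 ≤ 2 ^ 2 := pow_le_pow_left₀ hh0.le hh2 2
      linarith only [f1, f2]
    exact le_mul_of_one_le_right (by positivity) e1
  have e5 : 2 * cs s * Q ^ s ≤ 2 * cs s * X := mul_le_mul_of_nonneg_left hQX (by linarith)
  linarith

end Pool.Agent.N376.MP
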