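import Pool.Agent.N376.MP.Int

/-! Numerical estimates. -/

set_option autoImplicit false

open Finset

namespace Pool.Agent.N376.MP

lemma psi_mono {a b : ℝ} (h : a ≤ b) : psi a ≤ psi b :=
  mul_le_mul_of_nonneg_left (Real.sinh_le_sinh.2 h) (Real.exp_pos _).le

lemma exp_lo : (0.36787 : ℝ) ≤ Real.exp (-1) := by
  have := Real.exp_neg_one_gt_d9
  linarith

lemma psi_one : psi 1 ≤ 0.4324 := by
  unfold psi
  rw [Real.sinh_eq]
  have h1 := Real.exp_neg_one_gt_d9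
  have h2 : Real.exp (-1) * Real.exp 1 = 1 := by
    rw [← Real.exp_add]; simp
  have h3 : (0.1352 : ℝ) ≤ Real.exp (-1) * Real.exp (-1) := by nlinarith
  have e : Real.exp (-1) * ((Real.exp 1 - Real.exp (-1)) / 2) =
      (Real.exp (-1) * Real.exp 1 - Real.exp (-1) * Real.exp (-1)) / 2 := by ring
  rw [e, h2]
  linarith

lemma psi_neg (a : ℝ) : psi (-a) = -psi a := by
  unfold psi; rw [Real.sinh_neg]; ring

lemma psi_abs {a : ℝ} (h : |a| ≤ 1) : |psi a| ≤ 0.4324 := by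
  have h1 := abs_le.1 h
  rw [abs_le]
  constructor
  · have := psi_mono h1.1
    rw [psi_neg] at this
    have := psi_one
    linarith
  · exact (psi_mono h1.2).trans psi_one

lemma psi_sub {a b : ℝ} (h : b ≤ a) : 0.36787 * (a - b) ≤ psi a - psi b := by
  have h1 : a - b ≤ Real.sinh a - Real.sinh b := by
    have := Real.sinh_sub_id_strictMono.monotone h
    linarith
  have h2 := exp_lo
  have h3 : psi a - psi b = Real.exp (-1) * (Real.sinh a - Real.sinh b) := by unfold psi; ring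
  rw [h3]
  have h4 : 0 ≤ a - b := by linarith
  nlinarith

/-- the comparison of the bases -/
lemma base_le {a b : ℝ} (hb : -1 ≤ b) (hab : b ≤ a) (ha : a ≤ 1) :
    1 + ((a - b) / 4) ^ 2 + 2 * ((a - b) / 4) * psi b ≤
      (1 - 0.08 * (a - b) ^ 2) * (1 + (a - b) / 4 * psi a) ^ 2 := by
  have h1 := psi_sub hab
  have h2 := abs_le.1 (psi_abs (abs_le.2 ⟨by linarith, ha⟩ : |a| ≤ 1))
  set A := psi a
  set B := psi b
  set h := a - b with hh
  have h0 : 0 ≤ h := by linarith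
  have h3 : h ≤ 2 := by linarith
  have hP : (1 + h / 4 * A) ^ 2 ≤ 1.4792 := by
    have e1 : h / 4 * A ≤ 0.2162 := by nlinarith [h2.2]
    have e2 : -0.2162 ≤ h / 4 * A := by nlinarith [h2.1]
    nlinarith
  have e3 : (1 - 0.08 * h ^ 2) * (1 + h / 4 * A) ^ 2 - (1 + (h / 4) ^ 2 + 2 * (h / 4) * B) =
      h / 2 * (A - B) + h ^ 2 / 16 * A ^ 2 - h ^ 2 / 16 - 0.08 * h ^ 2 * (1 + h / 4 * A) ^ 2 := by
    ring
  have e4 : h / 2 * (0.36787 * h) ≤ h / 2 * (A - B) := mul_le_mul_of_nonneg_left h1 (by linarith)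
  have e5 : 0.08 * h ^ 2 * (1 + h / 4 * A) ^ 2 ≤ 0.08 * h ^ 2 * 1.4792 :=
    mul_le_mul_of_nonneg_left hP (by positivity)
  have e6 : 0 ≤ h ^ 2 / 16 * A ^ 2 := by positivity
  nlinarith [sq_nonneg h]

lemma base_lo {a b : ℝ} (hb : -1 ≤ b) (hab : b ≤ a) (ha : a ≤ 1) :
    3 / 4 ≤ 1 + (a - b) / 4 * psi a := by
  have h2 := abs_le.1 (psi_abs (abs_le.2 ⟨by linarith, ha⟩ : |a| ≤ 1))
  have h0 : 0 ≤ a - b := by linarith
  have h3 : a - b ≤ 2 := by linarith
  nlinarith [h2.1]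

lemma base_hi {a b m : ℝ} (hb : -1 ≤ b) (hab : b ≤ a) (ha : a ≤ 1) (hm : |m| ≤ 1) :
    1 + ((a - b) / 4) ^ 2 + 2 * ((a - b) / 4) * psi m ≤ 7 / 4 := by
  have h2 := abs_le.1 (psi_abs hm)
  have h0 : 0 ≤ a - b := by linarith
  have h3 : a - b ≤ 2 := by linarith
  nlinarith [h2.2]

lemma base_nonneg {a b m : ℝ} (hm : |m| ≤ 1) :
    0 ≤ 1 + ((a - b) / 4) ^ 2 + 2 * ((a - b) / 4) * psi m := by
  have h2 := abs_le.1 (psi_abs hm)
  set P := psi m
  have : 0 ≤ ((a - b) / 4 + P) ^ 2 := sq_nonneg _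
  nlinarith [h2.1, h2.2]

/-- the final comparison of the powers -/
lemma powers (K : ℕ) (q h P B : ℝ) (hq : 0 < q) (hK : (K : ℝ) ≤ Real.log q / 2)
    (hK2 : Real.log q / 2 - 1 ≤ K) (h0 : 0 ≤ h) (h2 : h ≤ 2) (hP : 9 / 16 ≤ P)
    (hB0 : 0 ≤ B) (hB : B ≤ (1 - 0.08 * h ^ 2) * P) (c : ℝ) (hc : 0 ≤ c) :
    (q * B ^ K + c * (7 / 4) ^ K) ≤
      (1 + c) * Real.exp 0.32 * q * q ^ (-(0.04 * h ^ 2)) * P ^ K := by
  have hP0 : 0 < P := by linarith
  have hlog : Real.exp (Real.log q) = q := Real.exp_log hq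
  have hr : Real.exp (-(0.08 * h ^ 2) * K) ≤ Real.exp 0.32 * q ^ (-(0.04 * h ^ 2)) := by
    rw [Real.rpow_def_of_pos hq, ← Real.exp_add]
    apply Real.exp_le_exp.2
    have : 0.08 * h ^ 2 * (Real.log q / 2 - 1) ≤ 0.08 * h ^ 2 * K :=
      mul_le_mul_of_nonneg_left hK2 (by positivity)
    nlinarith
  have h1 : B ^ K ≤ Real.exp (-(0.08 * h ^ 2) * K) * P ^ K := by
    have e1 : B ≤ Real.exp (-(0.08 * h ^ 2)) * P := by
      refine hB.trans (mul_le_mul_of_nonneg_right ?_ hP0.le)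
      have := Real.add_one_le_exp (-(0.08 * h ^ 2))
      linarith
    calc B ^ K ≤ (Real.exp (-(0.08 * h ^ 2)) * P) ^ K := pow_le_pow_left₀ hB0 e1 K
      _ = _ := by rw [mul_pow, ← Real.exp_nat_mul]; ring_nf
  have h3 : (7 / 4 : ℝ) ^ K ≤ q * Real.exp (-(0.08 * h ^ 2) * K) * P ^ K := by
    have e1 : (7 / 4 : ℝ) ≤ Real.exp (2 - 0.08 * h ^ 2) * P := by
      have e2 : Real.exp 1.68 ≤ Real.exp (2 - 0.08 * h ^ 2) := by
        apply Real.exp_le_exp.2
        nlinarith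
      have e3 : (4 : ℝ) ≤ Real.exp 1.68 := by
        have := Real.quadratic_le_exp_of_nonneg (show (0 : ℝ) ≤ 1.68 by norm_num)
        norm_num at this ⊢
        linarith
      have e4 : (4 : ℝ) ≤ Real.exp (2 - 0.08 * h ^ 2) := e3.trans e2
      nlinarith
    calc (7 / 4 : ℝ) ^ K ≤ (Real.exp (2 - 0.08 * h ^ 2) * P) ^ K :=
          pow_le_pow_left₀ (by norm_num) e1 K
      _ = Real.exp (2 * K) * Real.exp (-(0.08 * h ^ 2) * K) * P ^ K := by
          rw [mul_pow, ← Real.exp_nat_mul, ← Real.exp_add]; ring_nf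
      _ ≤ q * Real.exp (-(0.08 * h ^ 2) * K) * P ^ K := by
          apply mul_le_mul_of_nonneg_right _ (by positivity)
          apply mul_le_mul_of_nonneg_right _ (by positivity)
          rw [← hlog]
          apply Real.exp_le_exp.2
          linarith
  have h4 : q * B ^ K + c * (7 / 4) ^ K ≤ (1 + c) * (q * Real.exp (-(0.08 * h ^ 2) * K) * P ^ K) := by
    have e1 := mul_le_mul_of_nonneg_left h1 hq.le
    have e2 := mul_le_mul_of_nonneg_left h3 hc
    linarith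
  refine h4.trans ?_
  have h5 : q * Real.exp (-(0.08 * h ^ 2) * K) * P ^ K ≤
      q * (Real.exp 0.32 * q ^ (-(0.04 * h ^ 2))) * P ^ K := by
    apply mul_le_mul_of_nonneg_right _ (by positivity)
    exact mul_le_mul_of_nonneg_left hr hq.le
  have h6 := mul_le_mul_of_nonneg_left h5 (show 0 ≤ 1 + c by linarith)
  linarith

end Pool.Agent.N376.MP
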