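import Mathlib

/-! Weighted stars in a graph without `K_{s,t}`. -/

set_option autoImplicit false

open Finset

namespace Pool.Agent.N376.MP

variable {V : Type*} [Fintype V] [DecidableEq V]

/-- powers of a sum, up to functions with two equal arguments -/
lemma pow_le (r : ℕ) (f : V → ℝ) (hf0 : ∀ x, 0 ≤ f x) (hf1 : ∀ x, f x ≤ 1) :
    (∑ x, f x) ^ (r + 1) ≤
      (∑ x : Fin (r + 1) → V, if Function.Injective x then ∏ i, f (x i) else 0) +
        (r + 1) ^ 2 * (∑ x, f x) ^ r := by
  classical
  have hF0 : ∀ x : Fin (r + 1) → V, 0 ≤ ∏ i, f (x i) := fun x => prod_nonneg fun i _ => hf0 _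
  rw [Fintype.sum_pow]
  have h1 : ∀ x : Fin (r + 1) → V, ∏ i, f (x i) ≤
      (if Function.Injective x then ∏ i, f (x i) else 0) +
        ∑ p : Fin (r + 1) × Fin (r + 1),
          if p.1 ≠ p.2 ∧ x p.1 = x p.2 then ∏ i, f (x i) else 0 := by
    intro x
    by_cases hx : Function.Injective x
    · rw [if_pos hx]
      have : 0 ≤ ∑ p : Fin (r + 1) × Fin (r + 1),
          (if p.1 ≠ p.2 ∧ x p.1 = x p.2 then ∏ i, f (x i) else 0) := by
        apply sum_nonneg; intro p _
        split_ifs
        · exact hF0 x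
        · exact le_refl _
      linarith
    · rw [if_neg hx, zero_add]
      simp only [Function.Injective, not_forall] at hx
      obtain ⟨i, j, hij, hne⟩ := hx
      have := single_le_sum (s := (univ : Finset (Fin (r + 1) × Fin (r + 1))))
        (f := fun p => if p.1 ≠ p.2 ∧ x p.1 = x p.2 then ∏ i, f (x i) else 0)
        (fun p _ => by
          split_ifs
          · exact hF0 x
          · exact le_refl _) (mem_univ (i, j))
      dsimp only at this
      rwa [if_pos ⟨hne, hij⟩] at this
  refine (sum_le_sum fun x _ => h1 x).trans ?_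
  rw [sum_add_distrib]
  apply add_le_add le_rfl
  rw [sum_comm]
  have h2 : ∀ p : Fin (r + 1) × Fin (r + 1), (∑ x : Fin (r + 1) → V,
      if p.1 ≠ p.2 ∧ x p.1 = x p.2 then ∏ i, f (x i) else 0) ≤ (∑ x, f x) ^ r := by
    rintro ⟨i, j⟩
    dsimp only
    by_cases hij : i = j
    · have : (∑ x : Fin (r + 1) → V, if i ≠ j ∧ x i = x j then ∏ i, f (x i) else 0) = 0 := by
        apply sum_eq_zero; intro x _
        rw [if_neg]; simp [hij]
      rw [this]
      exact pow_nonneg (sum_nonneg fun x _ => hf0 x) _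
    rw [← sum_filter, Fintype.sum_pow]
    have h3 : ∀ x ∈ univ.filter (fun x : Fin (r + 1) → V => i ≠ j ∧ x i = x j),
        ∏ l, f (x l) ≤ (fun y : Fin r → V => ∏ l, f (y l)) (fun l => x (j.succAbove l)) := by
      intro x _
      rw [Fin.prod_univ_succAbove _ j]
      have h4 : 0 ≤ ∏ l, f (x (j.succAbove l)) := prod_nonneg fun i _ => hf0 _
      calc f (x j) * ∏ l, f (x (j.succAbove l)) ≤ 1 * ∏ l, f (x (j.succAbove l)) :=
            mul_le_mul_of_nonneg_right (hf1 _) h4
        _ = _ := one_mul _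
    refine (sum_le_sum h3).trans ?_
    rw [← sum_image (s := univ.filter (fun x : Fin (r + 1) → V => i ≠ j ∧ x i = x j))
      (g := fun x : Fin (r + 1) → V => fun l : Fin r => x (j.succAbove l))
      (f := fun y : Fin r → V => ∏ l, f (y l))]
    · exact sum_le_sum_of_subset_of_nonneg (subset_univ _)
        fun y _ _ => prod_nonneg fun i _ => hf0 _
    · intro x hx y hy hxy
      simp only [coe_filter, mem_univ, true_and, Set.mem_ofPred_eq] at hx hy
      funext l
      have h5 : ∀ l, l ≠ j → x l = y l := by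
        intro l hl
        obtain ⟨l', rfl⟩ := Fin.exists_succAbove_eq hl
        exact congrFun hxy l'
      by_cases hl : l = j
      · rw [hl, ← hx.2, ← hy.2]
        exact h5 i hij
      · exact h5 l hl
  refine (sum_le_sum fun p _ => h2 p).trans (le_of_eq ?_)
  rw [sum_const, card_univ, Fintype.card_prod, Fintype.card_fin, nsmul_eq_mul]
  push_cast
  ring

/-- the same, solved for the power -/
lemma pow_le' (r : ℕ) (f : V → ℝ) (hf0 : ∀ x, 0 ≤ f x) (hf1 : ∀ x, f x ≤ 1) :
    (∑ x, f x) ^ (r + 1) ≤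
      2 * (∑ x : Fin (r + 1) → V, if Function.Injective x then ∏ i, f (x i) else 0) +
        (2 * (r + 1) ^ 2) ^ r * ∑ x, f x := by
  have h := pow_le r f hf0 hf1
  set z := ∑ x, f x with hz
  set I := ∑ x : Fin (r + 1) → V, if Function.Injective x then ∏ i, f (x i) else 0 with hI
  have hz0 : 0 ≤ z := sum_nonneg fun x _ => hf0 x
  have hI0 : 0 ≤ I := by
    apply sum_nonneg; intro x _
    split_ifs
    · exact prod_nonneg fun i _ => hf0 _
    · exact le_refl _
  rcases le_total (2 * ((r : ℝ) + 1) ^ 2) z with h1 | h1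
  · have h2 : 2 * (((r : ℝ) + 1) ^ 2 * z ^ r) ≤ z ^ (r + 1) := by
      rw [pow_succ z r, mul_comm (z ^ r) z, ← mul_assoc]
      exact mul_le_mul_of_nonneg_right h1 (pow_nonneg hz0 r)
    have h3 : 0 ≤ (2 * ((r : ℝ) + 1) ^ 2) ^ r * z := by positivity
    linarith
  · have h2 : z ^ (r + 1) ≤ (2 * ((r : ℝ) + 1) ^ 2) ^ r * z := by
      rw [pow_succ]
      exact mul_le_mul_of_nonneg_right (pow_le_pow_left₀ hz0 h1 r) hz0
    linarith

/-- the adjacency matrix -/
noncomputable def adj (G : SimpleGraph V) (x y : V) : ℝ := by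
  classical exact if G.Adj x y then 1 else 0

omit [Fintype V] [DecidableEq V] in
lemma adj_nonneg (G : SimpleGraph V) (x y : V) : 0 ≤ adj G x y := by
  unfold adj; split_ifs <;> norm_num

omit [Fintype V] [DecidableEq V] in
lemma adj_le (G : SimpleGraph V) (x y : V) : adj G x y ≤ 1 := by
  unfold adj; split_ifs <;> norm_num

/-- weighted stars with different leaves -/
lemma star (G : SimpleGraph V) (s t : ℕ)
    (hG : (completeBipartiteGraph (Fin s) (Fin t)).Free G) (w : V → ℝ) (hw0 : ∀ x, 0 ≤ w x) :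
    (∑ y, ∑ x : Fin s → V, if Function.Injective x then ∏ i, (adj G (x i) y * w (x i)) else 0) ≤
      t * (∑ x, w x) ^ s := by
  classical
  rw [sum_comm, Fintype.sum_pow, mul_sum]
  apply sum_le_sum
  intro x _
  by_cases hx : Function.Injective x
  · simp only [if_pos hx, prod_mul_distrib]
    rw [← sum_mul]
    apply mul_le_mul_of_nonneg_right _ (prod_nonneg fun i _ => hw0 _)
    have h1 : ∀ y, ∏ i, adj G (x i) y = if ∀ i, G.Adj (x i) y then (1 : ℝ) else 0 := by
      intro y
      by_cases h : ∀ i, G.Adj (x i) y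
      · rw [if_pos h]
        apply prod_eq_one; intro i _
        unfold adj; rw [if_pos (h i)]
      · rw [if_neg h]
        push Not at h
        obtain ⟨i, hi⟩ := h
        apply prod_eq_zero (mem_univ i)
        unfold adj; rw [if_neg hi]
    simp only [h1]
    rw [← sum_filter, sum_const, nsmul_eq_mul, mul_one]
    have h2 : (univ.filter fun y => ∀ i, G.Adj (x i) y).card ≤ t := by
      by_contra hcon
      push Not at hcon
      obtain ⟨Q, hQ, hc⟩ := exists_subset_card_eq hcon.le
      apply hG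
      rw [SimpleGraph.completeBipartiteGraph_isContained_iff]
      refine ⟨univ.image x, Q, ?_, by simpa using hc, ?_⟩
      · rw [card_image_of_injective _ hx]; simp
      · intro a ha b hb
        simp only [coe_image, coe_univ, Set.image_univ, Set.mem_range] at ha
        obtain ⟨i, rfl⟩ := ha
        have := hQ hb
        simp only [mem_filter, mem_univ, true_and] at this
        exact this i
    exact_mod_cast h2
  · simp only [if_neg hx, sum_const_zero]
    positivity [prod_nonneg fun (i : Fin s) (_ : i ∈ univ) => hw0 (x i)]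

/-- the number of neighbours of `y` in the weighted set `w` -/
noncomputable def nb (G : SimpleGraph V) (w : V → ℝ) (y : V) : ℝ := ∑ x, adj G x y * w x

omit [DecidableEq V] in
lemma nb_nonneg (G : SimpleGraph V) (w : V → ℝ) (hw0 : ∀ x, 0 ≤ w x) (y : V) : 0 ≤ nb G w y :=
  sum_nonneg fun x _ => mul_nonneg (adj_nonneg G x y) (hw0 x)

/-- the constant -/
noncomputable def cs (s : ℕ) : ℝ := (2 * (s : ℝ) ^ 2) ^ (s - 1)

lemma one_le_cs (s : ℕ) (hs : 1 ≤ s) : 1 ≤ cs s := by
  unfold cs
  apply one_le_pow₀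
  have : (1 : ℝ) ≤ s := by exact_mod_cast hs
  nlinarith

/-- the bound of Kővári, Sós and Turán for the neighbours in a weighted set -/
theorem kst (G : SimpleGraph V) (s t : ℕ) (hs : 1 ≤ s)
    (hG : (completeBipartiteGraph (Fin s) (Fin t)).Free G) (w : V → ℝ) (hw0 : ∀ x, 0 ≤ w x)
    (hw1 : ∀ x, w x ≤ 1) :
    ∑ y, nb G w y ^ s ≤ 2 * t * (∑ x, w x) ^ s + cs s * ∑ y, nb G w y := by
  obtain ⟨r, rfl⟩ : ∃ r, s = r + 1 := ⟨s - 1, by omega⟩
  have h1 := star G (r + 1) t hG w hw0
  have h2 : ∀ y, nb G w y ^ (r + 1) ≤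
      2 * (∑ x : Fin (r + 1) → V, if Function.Injective x then ∏ i, (adj G (x i) y * w (x i))
        else 0) + cs (r + 1) * nb G w y := by
    intro y
    have := pow_le' r (fun x => adj G x y * w x)
      (fun x => mul_nonneg (adj_nonneg G x y) (hw0 x))
      (fun x => mul_le_one₀ (adj_le G x y) (hw0 x) (hw1 x))
    unfold nb cs
    push_cast
    simpa using this
  refine (sum_le_sum fun y _ => h2 y).trans ?_
  rw [sum_add_distrib, ← mul_sum, ← mul_sum]
  linarith

end Pool.Agent.N376.MP
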